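import Pool.Agent.helper45.SGK.Spec

/-! Row sk:AVI (MP_069684_lc): families of gates are equivariant. -/

set_option autoImplicit false

namespace Pool.Agent.SGK

open Finset Pool.Agent.helper38.Neg Pool.Agent.helper55.NT
open Pool.Agent.SGC (Sg SCirc Ext Mv hw RN Solv stA stB)

lemma AVI_val {n : ℕ} {G : Type} (C : SCirc n G) (ρ : Fin n → Fin n) (π : Equiv.Perm G)
    (h1 : ∀ g, C.lab (π g) = (C.lab g).map ρ) (h2 : ∀ g, C.kids (π g) = (C.kids g).map π.toEmbedding)
    (h3 : ∀ g, C.fn (π g) = C.fn g) (x : Fin n → Bool) :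
    ∀ (r : ℕ) (g : G), C.rank g < r → C.val (x ∘ ρ) g = C.val x (π g) := by
  intro r
  induction r with
  | zero => exact fun g hg => absurd hg (Nat.not_lt_zero _)
  | succ r ih =>
    intro g hg
    cases hl : C.lab g with
    | some p =>
      have hl' : C.lab (π g) = some (ρ p) := by rw [h1, hl]; rfl
      rw [SCirc.val_some C _ g p hl, SCirc.val_some C _ (π g) (ρ p) hl']
      rfl
    | none =>
      have hl' : C.lab (π g) = none := by rw [h1, hl]; rfl
      rw [SCirc.val_none C _ g hl, SCirc.val_none C _ (π g) hl', h3, h2, Finset.filter_map, Finset.card_map]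
      refine congrArg (C.fn g) (congrArg Finset.card (Finset.filter_congr fun h hh => ?_))
      rw [ih h (lt_of_lt_of_le (C.acyc g h hh) (Nat.lt_succ_iff.mp hg))]
      rfl

theorem AVI : AVI_stmt := by
  intro k _ n V W act F m hAv γ hγ w x
  obtain ⟨G, _, C, emb, -, -, hF, hπ⟩ := hAv
  obtain ⟨π, h1, h2, h3, h4⟩ := hπ γ hγ
  rw [← hF, ← hF, ← h4]
  exact AVI_val C (gl γ) π h1 h2 h3 x (C.rank (emb w) + 1) (emb w) (Nat.lt_succ_self _)

end Pool.Agent.SGK
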