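import Pool.Agent.helper45.SGK.Spec

/-!
# Project SGK, row ITR: Gaussian elimination by circuits
-/

set_option autoImplicit false

namespace Pool.Agent.SGK

open Finset Pool.Agent.helper38.Neg Pool.Agent.helper55.NT
open Pool.Agent.SGC (Sg SCirc Ext Mv hw RN Solv stA stB)

/-- The system after the first `i` steps. -/
def ITR_it {m t : ℕ} (a : Fin m → Fin t → ZMod 2) (b : Fin m → ZMod 2) :
    ℕ → (Fin m → Fin t → ZMod 2) × (Fin m → ZMod 2)
  | 0 => (a, b)
  | i + 1 => if h : i < t then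
      (stA (ITR_it a b i).1 ⟨i, h⟩, stB (ITR_it a b i).1 (ITR_it a b i).2 ⟨i, h⟩) else ITR_it a b i

theorem ITR_succ {m t : ℕ} (a : Fin m → Fin t → ZMod 2) (b : Fin m → ZMod 2) (i : ℕ) (h : i < t) :
    ITR_it a b (i + 1) =
      (stA (ITR_it a b i).1 ⟨i, h⟩, stB (ITR_it a b i).1 (ITR_it a b i).2 ⟨i, h⟩) := by
  show (if h : i < t then
      (stA (ITR_it a b i).1 ⟨i, h⟩, stB (ITR_it a b i).1 (ITR_it a b i).2 ⟨i, h⟩) else ITR_it a b i) = _
  rw [dif_pos h]

theorem ITR_solv (hGEL : GEL_stmt) {m t : ℕ} (a : Fin m → Fin t → ZMod 2) (b : Fin m → ZMod 2) (i : ℕ)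
    (hi : i ≤ t) : Solv (ITR_it a b i).1 (ITR_it a b i).2 ↔ Solv a b := by
  induction i with
  | zero => exact Iff.rfl
  | succ i ih =>
    rw [ITR_succ a b i (by omega)]
    exact ((hGEL m t (ITR_it a b i).1 (ITR_it a b i).2 ⟨i, by omega⟩).1).symm.trans (ih (by omega))

theorem ITR_zero (hGEL : GEL_stmt) {m t : ℕ} (a : Fin m → Fin t → ZMod 2) (b : Fin m → ZMod 2) (i : ℕ)
    (hi : i ≤ t) : ∀ j : Fin t, j.val < i → ∀ r, (ITR_it a b i).1 r j = 0 := by
  induction i with
  | zero => intro j hj; omega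
  | succ i ih =>
    intro j hj r
    rw [ITR_succ a b i (by omega)]
    by_cases h : j.val < i
    · exact (hGEL m t (ITR_it a b i).1 (ITR_it a b i).2 ⟨i, by omega⟩).2.2 j (ih (by omega) j h) r
    · have hj' : j = ⟨i, by omega⟩ := Fin.ext (by show j.val = i; omega)
      rw [hj']
      exact (hGEL m t (ITR_it a b i).1 (ITR_it a b i).2 ⟨i, by omega⟩).2.1 r

theorem ITR_rn (hGST : GST_stmt) {n m t M : ℕ} (a : (Fin n → Bool) → Fin m → Fin t → ZMod 2)
    (b : (Fin n → Bool) → Fin m → ZMod 2)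
    (h : RN ∅ M ((Set.range fun (q : Fin m × Fin t) (x : Fin n → Bool) => decide (a x q.1 q.2 = 1)) ∪
      Set.range fun (r : Fin m) (x : Fin n → Bool) => decide (b x r = 1))) (i : ℕ) (hi : i ≤ t) :
    RN ∅ (M + i * (40 * (m + t + 2) ^ 3))
      ((Set.range fun (q : Fin m × Fin t) (x : Fin n → Bool) =>
          decide ((ITR_it (a x) (b x) i).1 q.1 q.2 = 1)) ∪
        Set.range fun (r : Fin m) (x : Fin n → Bool) => decide ((ITR_it (a x) (b x) i).2 r = 1)) := by
  induction i with
  | zero => exact RN.mono h le_rfl le_rfl (by omega)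
  | succ i ih =>
    have h1 := hGST n m t (fun x => (ITR_it (a x) (b x) i).1) (fun x => (ITR_it (a x) (b x) i).2)
      ⟨i, by omega⟩
    have h2 := RN.trans' (ih (by omega)) (RN.mono h1 Set.subset_union_right le_rfl le_rfl)
    have e1 : (fun (q : Fin m × Fin t) (x : Fin n → Bool) =>
          decide ((ITR_it (a x) (b x) (i + 1)).1 q.1 q.2 = 1)) =
        fun (q : Fin m × Fin t) (x : Fin n → Bool) =>
          decide (stA (ITR_it (a x) (b x) i).1 ⟨i, by omega⟩ q.1 q.2 = 1) := by
      funext q x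
      rw [ITR_succ (a x) (b x) i (by omega)]
    have e2 : (fun (r : Fin m) (x : Fin n → Bool) => decide ((ITR_it (a x) (b x) (i + 1)).2 r = 1)) =
        fun (r : Fin m) (x : Fin n → Bool) =>
          decide (stB (ITR_it (a x) (b x) i).1 (ITR_it (a x) (b x) i).2 ⟨i, by omega⟩ r = 1) := by
      funext r x
      rw [ITR_succ (a x) (b x) i (by omega)]
    rw [e1, e2]
    refine RN.mono h2 le_rfl le_rfl ?_
    rw [Nat.add_mul, one_mul, Nat.add_assoc]

/-- A disjunction. -/
theorem ITR_or {n m : ℕ} (u : Fin m → Fn n) (k : ℕ) :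
    RN (Set.range u) (k + 1) {fun x => decide (∃ r : Fin m, r.val < k ∧ u r x = true)} := by
  induction k with
  | zero =>
    have h1 : (fun x : Fin n → Bool => decide (∃ r : Fin m, r.val < 0 ∧ u r x = true)) = fun _ => false := by
      funext x
      simp
    rw [h1]
    exact Rel.mono (Rel.const (Set.range u) false) le_rfl le_rfl (by omega) (by omega)
  | succ k ih =>
    by_cases hk : k < m
    · have h1 : RN (Set.range u ∪ {fun x => decide (∃ r : Fin m, r.val < k ∧ u r x = true)}) 1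
          {fun x => (decide (∃ r : Fin m, r.val < k ∧ u r x = true)) || u ⟨k, hk⟩ x} :=
        Rel.mono (Rel.or (F := Set.range u ∪ {fun x => decide (∃ r : Fin m, r.val < k ∧ u r x = true)})
          (u := fun x => decide (∃ r : Fin m, r.val < k ∧ u r x = true)) (v := u ⟨k, hk⟩)
          (Or.inr rfl) (Or.inl ⟨_, rfl⟩)) le_rfl le_rfl (by omega) (by omega)
      have h2 := RN.trans' ih h1
      have h3 : (fun x : Fin n → Bool => decide (∃ r : Fin m, r.val < k + 1 ∧ u r x = true)) =
          fun x => (decide (∃ r : Fin m, r.val < k ∧ u r x = true)) || u ⟨k, hk⟩ x := by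
        funext x
        rw [Bool.eq_iff_iff]
        simp only [decide_eq_true_eq, Bool.or_eq_true]
        constructor
        · rintro ⟨r, hr, hu⟩
          by_cases h : r.val < k
          · exact Or.inl ⟨r, h, hu⟩
          · have hr' : r = ⟨k, hk⟩ := Fin.ext (by show r.val = k; omega)
            rw [hr'] at hu
            exact Or.inr hu
        · rintro (⟨r, hr, hu⟩ | hu)
          · exact ⟨r, by omega, hu⟩
          · exact ⟨⟨k, hk⟩, by show k < k + 1; omega, hu⟩
      rw [h3]
      exact h2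
    · have h3 : (fun x : Fin n → Bool => decide (∃ r : Fin m, r.val < k + 1 ∧ u r x = true)) =
          fun x => decide (∃ r : Fin m, r.val < k ∧ u r x = true) := by
        funext x
        rw [Bool.eq_iff_iff]
        simp only [decide_eq_true_eq]
        constructor
        · rintro ⟨r, hr, hu⟩
          exact ⟨r, by omega, hu⟩
        · rintro ⟨r, hr, hu⟩
          exact ⟨r, by omega, hu⟩
      rw [h3]
      exact RN.mono ih le_rfl le_rfl (by omega)

theorem ITR (hGEL : GEL_stmt) (hGST : GST_stmt) : ITR_stmt := by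
  intro n m t M a b h
  have h1 := ITR_rn hGST a b h t le_rfl
  have h2 := ITR_or (fun (r : Fin m) (x : Fin n → Bool) => decide ((ITR_it (a x) (b x) t).2 r = 1)) m
  have h3 := RN.trans' h1 (RN.mono h2 (F' := ∅ ∪ ((Set.range fun (q : Fin m × Fin t) (x : Fin n → Bool) =>
          decide ((ITR_it (a x) (b x) t).1 q.1 q.2 = 1)) ∪
        Set.range fun (r : Fin m) (x : Fin n → Bool) => decide ((ITR_it (a x) (b x) t).2 r = 1)))
      (fun f hf => Or.inr (Or.inr hf)) le_rfl le_rfl)
  have h4 : RN (∅ ∪ {fun x : Fin n → Bool => decide (∃ r : Fin m, r.val < m ∧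
      decide ((ITR_it (a x) (b x) t).2 r = 1) = true)}) 1
      {fun x : Fin n → Bool => !(decide (∃ r : Fin m, r.val < m ∧
      decide ((ITR_it (a x) (b x) t).2 r = 1) = true))} :=
    Rel.not (u := fun x : Fin n → Bool => decide (∃ r : Fin m, r.val < m ∧
      decide ((ITR_it (a x) (b x) t).2 r = 1) = true)) (Or.inr rfl)
  obtain ⟨s, hs, C, o, hC⟩ := RN.toCircuit (RN.trans' h3 h4)
  refine ⟨s, by omega, C, o, fun x => ?_⟩
  rw [hC x]
  show (!(decide (∃ r : Fin m, r.val < m ∧
      decide ((ITR_it (a x) (b x) t).2 r = 1) = true))) = true ↔ _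
  rw [← ITR_solv hGEL (a x) (b x) t le_rfl]
  have h5 : ∀ r j, (ITR_it (a x) (b x) t).1 r j = 0 :=
    fun r j => ITR_zero hGEL (a x) (b x) t le_rfl j j.isLt r
  rw [Bool.not_eq_true', decide_eq_false_iff_not]
  constructor
  · intro h6
    refine ⟨0, fun r => ?_⟩
    have h7 : (ITR_it (a x) (b x) t).2 r ≠ 1 := by
      intro h8
      exact h6 ⟨r, r.isLt, decide_eq_true h8⟩
    have h8 : ∀ z : ZMod 2, z ≠ 1 → z = 0 := by decide
    rw [h8 _ h7]
    exact Finset.sum_eq_zero fun j _ => by rw [h5 r j, zero_mul]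
  · rintro ⟨α, hα⟩ ⟨r, -, hr⟩
    have h6 := of_decide_eq_true hr
    have h7 := hα r
    rw [h6, Finset.sum_eq_zero (fun j _ => by rw [h5 r j, zero_mul])] at h7
    exact absurd h7 (by decide)

end Pool.Agent.SGK
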